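import Pool.Agent.H77.KL.LOC5

/-!
Module LOC of kl_modules.
-/

set_option autoImplicit false

namespace Pool.Agent.H77.KL

open MeasureTheory Set Pool.Agent.H82.KL
open scoped ENNReal NNReal

theorem loc_real (hABS : T_ABS) (hMLR : T_MLR) (hSHL : T_SHL) (hLCC : T_LCC) (hROW : T_ROW)
    (hGRAM : T_GRAM) (hSUPB : T_SUPB) (hDual : T_DUAL2) (hPACK : T_PACK) {d k : ℕ} (hd : 3 ≤ d)
    (hk : 2 ≤ k) {L ε : ℝ} (a : Fin k → EE d → ℂ) (hL : 0 < L) (hε : 0 < ε)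
    (hs : ∀ j, Pool.Agent.H82.KL.Sym (a j)) (hT : Transv (fun j => tsupport (a j)))
    (hne : ∀ j, (tsupport (a j)).Nonempty) :
    ∃ C : ℝ, 0 < C ∧ ∀ (R h : ℝ) (N : Fin k → ℝ) (f : Fin k → EE d → ℂ) (z₀ : EE d × ℝ)
      (Y : Finset (EE d × ℝ)), 1 ≤ R → 0 < h → (∀ j, Measurable (f j)) →
      (∀ j y, ‖f j y‖ ≤ N j) → Sep Y →
      (∀ z ∈ Y, dist z z₀ ≤ R ∧ R ≤ z.2 ∧ z.2 ≤ 2 * R ∧ ∀ j, h ≤ ‖W (a j) (f j) z‖) →
      (∀ j, amp d R (N j) h ≤ (2 * R) ^ L) → (Y.Nonempty → ∀ j, 0 < amp d R (N j) h) ∧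
      ((∀ j, ∫⁻ y, ‖f j y‖ₑ ^ 2 ≠ ⊤) →
      (Y.card : ℝ) ≤ C * R ^ ε *
        ∑ j, amp d R (N j) h ^ (Pk d k - 2) / h ^ 2 * (∫⁻ y, ‖f j y‖ₑ ^ 2).toReal) := by
  classical
  have hd' : (3 : ℝ) ≤ d := by exact_mod_cast hd
  have hk' : (2 : ℝ) ≤ k := by exact_mod_cast hk
  obtain ⟨ε1, hε1⟩ : ∃ ε1, ε1 = min 1 (ε / ((d : ℝ) + 3)) := ⟨_, rfl⟩
  have hε0 : 0 < ε1 := by rw [hε1]; exact lt_min one_pos (by positivity)
  have hεle : ε1 ≤ 1 := by rw [hε1]; exact min_le_left _ _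
  have hεd : ((d : ℝ) + 3) * ε1 ≤ ε := by
    have e1 : ε1 ≤ ε / ((d : ℝ) + 3) := by rw [hε1]; exact min_le_right _ _
    rw [le_div_iff₀ (by positivity)] at e1
    linarith
  obtain ⟨M, hM⟩ : ∃ M : ℕ, M = ⌈(2 * L + d + 3) / ε1⌉₊ := ⟨_, rfl⟩
  have hM' : 2 * L + d + 3 ≤ ε1 * M := by
    have e1 := Nat.le_ceil ((2 * L + d + 3) / ε1)
    rw [← hM, div_le_iff₀ hε0] at e1
    linarith
  obtain ⟨K1, hK1⟩ := ex_PHS hSUPB a (by omega) hs
  obtain ⟨K2, hK2⟩ := ex_PH1 hGRAM hMLR a ε1 hk hε0 hs hT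
  obtain ⟨K3, hK3⟩ := ex_PH2 hSHL a M (by omega) hs
  obtain ⟨K4, hK4⟩ := ex_PH3 hLCC hROW a M hd hs hT hne
  obtain ⟨K, hK⟩ : ∃ K : ℝ, K = |K1| + |K2| + |K3| + |K4| + 1 := ⟨_, rfl⟩
  have a1 := abs_nonneg K1
  have a2 := abs_nonneg K2
  have a3 := abs_nonneg K3
  have a4 := abs_nonneg K4
  have hKone : 1 ≤ K := by linarith
  have hPS := hK1 K (by linarith [le_abs_self K1])
  have hP1 := hK2 K (by linarith [le_abs_self K2])
  have hP2 := hK3 K (by linarith [le_abs_self K3])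
  have hP3 := hK4 K (by linarith [le_abs_self K4])
  obtain ⟨C, hC, hlarge⟩ := loc_large hABS hDual hd hk a hL hε0 hεle hM' hKone hs hPS hP1 hP2 hP3
  obtain ⟨CP, hCP, hpack⟩ := hPACK d
  have hP : 0 ≤ Pk d k - 2 := by
    rw [← exp1 hd hk]
    exact mul_nonneg (by linarith [cc_nonneg hd hk]) (div_nonneg zero_le_one (by linarith))
  have hKP : 0 ≤ K ^ (Pk d k - 2) := Real.rpow_nonneg (by linarith) _
  obtain ⟨g, hg⟩ : ∃ g, g = ‖U (Pool.Agent.H82.KL.sq (a ⟨0, by omega⟩)) (0 : EE d × ℝ)‖ :=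
    ⟨_, rfl⟩
  have hg0 : 0 ≤ g := by rw [hg]; exact norm_nonneg _
  obtain ⟨R0, hR0⟩ : ∃ R0 : ℝ, R0 = max 2 K := ⟨_, rfl⟩
  have hR0p : 0 ≤ R0 := by rw [hR0]; exact le_trans zero_le_two (le_max_left _ _)
  refine ⟨C + CP * (1 + R0) ^ (d + 1) * (K ^ (Pk d k - 2) * (g + 1)) + 1, by positivity, ?_⟩
  intro R h N f z₀ Y hR hh hf hN hSep hY hAmp
  have hR0' : 0 < R := by linarith
  have hN0 : ∀ j, 0 ≤ N j := fun j => (norm_nonneg _).trans (hN j 0)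
  have hRp : 0 ≤ R ^ (((d : ℝ) - 1) / 2) := Real.rpow_nonneg hR0'.le _
  have hα0 : ∀ j, 0 ≤ amp d R (N j) h := fun j => by
    have := hN0 j
    unfold amp; positivity
  have hα1 : Y.Nonempty → ∀ j, 1 ≤ K * amp d R (N j) h := by
    rintro ⟨z₁, hz₁⟩ j
    have e1 := hPS j R (N j) (f j) z₁ hR (hY z₁ hz₁).2.1 (hY z₁ hz₁).2.2.1 (hf j) (hN j)
    have e2 := (hY z₁ hz₁).2.2.2 j
    unfold amp
    rw [← mul_div_assoc, le_div_iff₀ hh, one_mul]
    linarith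
  have hα2 : Y.Nonempty → ∀ j, 0 < amp d R (N j) h := by
    intro hYn j
    by_contra hn
    have := hα1 hYn j
    nlinarith [hα0 j]
  refine ⟨hα2, fun hfin => ?_⟩
  have hT0 : ∀ j, 0 ≤ amp d R (N j) h ^ (Pk d k - 2) / h ^ 2 *
      (∫⁻ y, ‖f j y‖ₑ ^ 2).toReal := fun j => by
    have := hα0 j
    positivity
  obtain ⟨SS, hSS⟩ : ∃ SS, SS = ∑ j, amp d R (N j) h ^ (Pk d k - 2) / h ^ 2 *
    (∫⁻ y, ‖f j y‖ₑ ^ 2).toReal := ⟨_, rfl⟩
  have hSS0 : 0 ≤ SS := by rw [hSS]; exact Finset.sum_nonneg fun j _ => hT0 j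
  rw [← hSS]
  have hRe : 1 ≤ R ^ ε := Real.one_le_rpow hR hε.le
  rcases Y.eq_empty_or_nonempty with hYe | hYn
  · rw [hYe, Finset.card_empty, Nat.cast_zero]
    positivity
  by_cases hRR : R0 ≤ R
  · have e1 := hlarge R h N f z₀ Y ((le_max_left _ _).trans (by rw [← hR0]; exact hRR))
      ((le_max_right _ _).trans (by rw [← hR0]; exact hRR)) hh hf hN hSep hY hAmp hfin
    rw [← hSS] at e1
    refine e1.trans ?_
    have e2 : R ^ (((d : ℝ) + 3) * ε1) ≤ R ^ ε := Real.rpow_le_rpow_of_exponent_le hR hεd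
    refine mul_le_mul_of_nonneg_right ?_ hSS0
    refine mul_le_mul ?_ e2 (by positivity) (by positivity)
    have : 0 ≤ CP * (1 + R0) ^ (d + 1) * (K ^ (Pk d k - 2) * (g + 1)) := by positivity
    linarith
  · rw [not_le] at hRR
    have e1 := hpack Y z₀ R hSep hR0'.le fun z' hz' => by
      rw [dist_comm]; exact (hY z' hz').1
    have e2 : CP * (1 + R) ^ (d + 1) ≤ CP * (1 + R0) ^ (d + 1) :=
      mul_le_mul_of_nonneg_left (pow_le_pow_left₀ (by linarith) (by linarith) _) hCP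
    have hYn' := hYn
    obtain ⟨z₁, hz₁⟩ := hYn
    obtain ⟨j1, hj1⟩ : ∃ j1 : Fin k, j1 = ⟨0, by omega⟩ := ⟨_, rfl⟩
    have e3 := dual_step hDual (a j1) (f j1) {z₁} h (fun _ => 1) (hs j1) (hf j1)
      ⟨N j1, hN j1⟩ (hfin j1) hh
      (fun _ => zero_le_one) (fun z hz => by
        rw [Finset.mem_singleton.1 hz]
        exact (hY z₁ hz₁).2.2.2 j1)
    simp only [Finset.sum_singleton, mul_one, one_mul] at e3
    have e4 : G (a j1) (f j1) z₁ z₁ ≤ g := by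
      refine (le_abs_self _).trans ((abs_G_le _ _ _ _).trans (le_of_eq ?_))
      rw [sub_self, hg, hj1]
    have hFj : 0 ≤ (∫⁻ y, ‖f j1 y‖ₑ ^ 2).toReal := ENNReal.toReal_nonneg
    have e5 : 1 ≤ (g + 1) * ((∫⁻ y, ‖f j1 y‖ₑ ^ 2).toReal / h ^ 2) := by
      rw [← mul_div_assoc, le_div_iff₀ (by positivity), one_mul]
      nlinarith
    have e6 : 1 ≤ K ^ (Pk d k - 2) * amp d R (N j1) h ^ (Pk d k - 2) := by
      rw [← Real.mul_rpow (by linarith) (hα0 j1)]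
      exact Real.one_le_rpow (hα1 hYn' j1) hP
    have e7 : 1 ≤ K ^ (Pk d k - 2) * (g + 1) * SS := by
      have e8 : amp d R (N j1) h ^ (Pk d k - 2) / h ^ 2 *
          (∫⁻ y, ‖f j1 y‖ₑ ^ 2).toReal ≤ SS := by
        rw [hSS]
        exact Finset.single_le_sum (fun j _ => hT0 j) (Finset.mem_univ j1)
      have e9 : (1 : ℝ) * 1 ≤ (K ^ (Pk d k - 2) * amp d R (N j1) h ^ (Pk d k - 2)) *
          ((g + 1) * ((∫⁻ y, ‖f j1 y‖ₑ ^ 2).toReal / h ^ 2)) :=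
        mul_le_mul e6 e5 zero_le_one (by linarith)
      calc (1 : ℝ) ≤ (K ^ (Pk d k - 2) * amp d R (N j1) h ^ (Pk d k - 2)) *
          ((g + 1) * ((∫⁻ y, ‖f j1 y‖ₑ ^ 2).toReal / h ^ 2)) := by linarith
        _ = K ^ (Pk d k - 2) * (g + 1) * (amp d R (N j1) h ^ (Pk d k - 2) / h ^ 2 *
          (∫⁻ y, ‖f j1 y‖ₑ ^ 2).toReal) := by ring
        _ ≤ _ := mul_le_mul_of_nonneg_left e8 (by positivity)
    have hX : 0 ≤ CP * (1 + R0) ^ (d + 1) := by positivity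
    calc (Y.card : ℝ) ≤ CP * (1 + R0) ^ (d + 1) * 1 := by linarith
      _ ≤ CP * (1 + R0) ^ (d + 1) * (K ^ (Pk d k - 2) * (g + 1) * SS) :=
          mul_le_mul_of_nonneg_left e7 hX
      _ = (CP * (1 + R0) ^ (d + 1) * (K ^ (Pk d k - 2) * (g + 1))) * 1 * SS := by ring
      _ ≤ (C + CP * (1 + R0) ^ (d + 1) * (K ^ (Pk d k - 2) * (g + 1)) + 1) * R ^ ε * SS := by
          refine mul_le_mul_of_nonneg_right (mul_le_mul ?_ hRe zero_le_one (by positivity)) hSS0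
          linarith

/-- LOC -/
theorem loc_main (h1 : T_ABS) (h2 : T_MLR) (h3 : T_SHL) (h4 : T_LCC) (h5 : T_ROW) (h6 : T_GRAM)
    (h7 : T_SUPB) (h8 : T_DUAL2) (h9 : T_PACK) : T_LOC := by
  classical
  intro d k L ε a hd hk hL hε hs hT
  by_cases hne : ∀ j, (tsupport (a j)).Nonempty
  · obtain ⟨C, hC, hmain⟩ := loc_real h1 h2 h3 h4 h5 h6 h7 h8 h9 hd hk a hL hε hs hT hne
    refine ⟨C.toNNReal, ?_⟩
    intro R h N f z₀ Y hR hh hf hN hSep hY hAmp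
    have hR0 : 0 < R := by linarith
    have hAmp' : ∀ j, amp d R (N j) h ≤ (2 * R) ^ L := fun j => by
      unfold amp
      rw [div_le_iff₀ hh]
      exact hAmp j
    obtain ⟨hpos, hfinal⟩ := hmain R h N f z₀ Y hR hh hf hN hSep hY hAmp'
    rcases Y.eq_empty_or_nonempty with hYe | hYn
    · rw [hYe, Finset.card_empty, Nat.cast_zero]
      exact zero_le
    have hpos' := hpos hYn
    have hRe : 0 < R ^ ε := Real.rpow_pos_of_pos hR0 _
    by_cases hfin : ∀ j, ∫⁻ y, ‖f j y‖ₑ ^ 2 ≠ ⊤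
    · have e1 := hfinal hfin
      have e2 : (Y.card : ℝ≥0∞) = ENNReal.ofReal (Y.card : ℝ) := (ENNReal.ofReal_natCast _).symm
      rw [e2]
      refine (ENNReal.ofReal_le_ofReal e1).trans (le_of_eq ?_)
      rw [ENNReal.ofReal_mul (by positivity), ENNReal.ofReal_mul hC.le,
        ENNReal.ofReal_sum_of_nonneg]
      · congr 1
        refine Finset.sum_congr rfl fun j _ => ?_
        have := hpos' j
        rw [ENNReal.ofReal_mul (by positivity), ENNReal.ofReal_toReal (hfin j)]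
        rfl
      · intro j _
        have := hpos' j
        positivity
    · push Not at hfin
      obtain ⟨j, hj⟩ := hfin
      have e1 : ∑ j, ENNReal.ofReal ((N j * R ^ (((d : ℝ) - 1) / 2) / h) ^ (Pk d k - 2) / h ^ 2) *
          ∫⁻ y, ‖f j y‖ₑ ^ 2 = ⊤ := by
        rw [ENNReal.sum_eq_top]
        refine ⟨j, Finset.mem_univ j, ?_⟩
        rw [hj, ENNReal.mul_top]
        have e2 : 0 < (N j * R ^ (((d : ℝ) - 1) / 2) / h) ^ (Pk d k - 2) / h ^ 2 := by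
          have := Real.rpow_pos_of_pos (hpos' j) (Pk d k - 2)
          unfold amp at this
          positivity
        exact (ENNReal.ofReal_pos.2 e2).ne'
      rw [e1, ENNReal.mul_top]
      · exact le_top
      · refine mul_ne_zero ?_ ?_
        · simpa using hC
        · exact (ENNReal.ofReal_pos.2 hRe).ne'
  · push Not at hne
    obtain ⟨j, hj⟩ := hne
    refine ⟨0, ?_⟩
    intro R h N f z₀ Y hR hh hf hN hSep hY hAmp
    have hYe : Y = ∅ := by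
      rw [Finset.eq_empty_iff_forall_notMem]
      intro z hz
      have e1 := (hY z hz).2.2.2 j
      have e2 : a j = 0 := tsupport_eq_empty_iff.1 hj
      have e3 : W (a j) (f j) z = 0 := by
        rw [e2]
        unfold W U
        simp
      rw [e3, norm_zero] at e1
      linarith
    rw [hYe, Finset.card_empty, Nat.cast_zero]
    exact zero_le

end Pool.Agent.H77.KL
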