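import Pool.Agent.H82.KL.Targets3

/-!
Module LOC of kl_modules, part 1: phases, Gram matrices, the functions for the restriction estimate.
-/

set_option autoImplicit false

namespace Pool.Agent.H77.KL

open MeasureTheory Set Pool.Agent.H82.KL
open scoped ENNReal NNReal

theorem sqe {d : ℕ} (a : EE d → ℂ) (ξ : EE d) :
    Pool.Agent.H82.KL.sq a ξ = ((‖a ξ‖ ^ 2 : ℝ) : ℂ) := rfl

theorem norm_e (x : ℝ) : ‖e x‖ = 1 := by
  unfold e
  exact Complex.norm_exp_ofReal_mul_I _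

theorem e_add (x y : ℝ) : e (x + y) = e x * e y := by
  unfold e
  rw [← Complex.exp_add]
  congr 1
  push_cast
  ring

theorem conj_e (x : ℝ) : (starRingEnd ℂ) (e x) = e (-x) := by
  unfold e
  rw [← Complex.exp_conj, map_mul, Complex.conj_I, Complex.conj_ofReal]
  congr 1
  push_cast
  ring

theorem cont_e : Continuous e := by
  unfold e
  fun_prop

/-- the phase function of a point -/
noncomputable def phi {d : ℕ} (z : EE d × ℝ) (ξ : EE d) : ℝ := inner ℝ z.1 ξ + z.2 * ‖ξ‖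

theorem phi_sub {d : ℕ} (z z' : EE d × ℝ) (ξ : EE d) : phi (z - z') ξ = phi z ξ + -phi z' ξ := by
  unfold phi
  rw [Prod.fst_sub, Prod.snd_sub, inner_sub_left]
  ring

theorem phi_neg {d : ℕ} (z : EE d × ℝ) (ξ : EE d) : phi (-z) ξ = -phi z ξ := by
  unfold phi
  rw [Prod.fst_neg, Prod.snd_neg, inner_neg_left]
  ring

theorem cont_phi {d : ℕ} (z : EE d × ℝ) : Continuous (phi z) := by
  unfold phi
  fun_prop

theorem U_eq {d : ℕ} (b : EE d → ℂ) (z : EE d × ℝ) : U b z = ∫ ξ, e (phi z ξ) * b ξ := rfl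

open Classical in
/-- the phase which makes a number positive -/
noncomputable def ph (c : ℂ) : ℂ := if c = 0 then 1 else (starRingEnd ℂ) c / (‖c‖ : ℂ)

theorem norm_ph (c : ℂ) : ‖ph c‖ = 1 := by
  unfold ph
  split_ifs with h
  · exact norm_one
  · rw [norm_div, RCLike.norm_conj, Complex.norm_real, norm_norm]
    exact div_self (norm_ne_zero_iff.2 h)

theorem ph_mul (c : ℂ) : ph c * c = (‖c‖ : ℂ) := by
  unfold ph
  split_ifs with h
  · rw [h]; simp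
  · have h1 : (‖c‖ : ℂ) ≠ 0 := by exact_mod_cast norm_ne_zero_iff.2 h
    rw [div_mul_eq_mul_div, div_eq_iff h1, mul_comm ((starRingEnd ℂ) c) c, Complex.mul_conj,
      Complex.normSq_eq_norm_sq]
    push_cast
    ring

theorem U_conj {d : ℕ} (a : EE d → ℂ) (z : EE d × ℝ) :
    (starRingEnd ℂ) (U (sq a) z) = U (sq a) (-z) := by
  rw [U_eq, U_eq, ← integral_conj]
  congr 1
  funext ξ
  rw [map_mul, conj_e, phi_neg, sqe, Complex.conj_ofReal]

/-- the Gram matrix with phases -/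
noncomputable def G {d : ℕ} (a f : EE d → ℂ) (z z' : EE d × ℝ) : ℝ :=
  (ph (W a f z) * (starRingEnd ℂ) (ph (W a f z')) * U (sq a) (z - z')).re

theorem G_symm {d : ℕ} (a f : EE d → ℂ) (z z' : EE d × ℝ) : G a f z z' = G a f z' z := by
  unfold G
  rw [← Complex.conj_re, map_mul, map_mul, Complex.conj_conj, U_conj, neg_sub]
  congr 1
  ring

theorem abs_G_le {d : ℕ} (a f : EE d → ℂ) (z z' : EE d × ℝ) :
    |G a f z z'| ≤ ‖U (sq a) (z - z')‖ := by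
  unfold G
  refine (Complex.abs_re_le_norm _).trans ?_
  rw [norm_mul, norm_mul, RCLike.norm_conj, norm_ph, norm_ph, one_mul, one_mul]

theorem gq_eq {d : ℕ} (a f : EE d → ℂ) (Y : Finset (EE d × ℝ)) (β : EE d × ℝ → ℝ) :
    gq a Y (fun z => (β z : ℂ) * ph (W a f z)) =
      ∑ z ∈ Y, ∑ z' ∈ Y, β z * β z' * G a f z z' := by
  unfold gq
  rw [Complex.re_sum]
  refine Finset.sum_congr rfl fun z _ => ?_
  rw [Complex.re_sum]
  refine Finset.sum_congr rfl fun z' _ => ?_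
  rw [map_mul, Complex.conj_ofReal]
  have h1 : (β z : ℂ) * ph (W a f z) * ((β z' : ℂ) * (starRingEnd ℂ) (ph (W a f z'))) *
      U (sq a) (z - z') = ((β z * β z' : ℝ) : ℂ) *
      (ph (W a f z) * (starRingEnd ℂ) (ph (W a f z')) * U (sq a) (z - z')) := by
    push_cast
    ring
  rw [h1, Complex.re_ofReal_mul]
  rfl

theorem sum_ph {d : ℕ} (a f : EE d → ℂ) (Y : Finset (EE d × ℝ)) (β : EE d × ℝ → ℝ) :
    ∑ z ∈ Y, (β z : ℂ) * ph (W a f z) * W a f z = ((∑ z ∈ Y, β z * ‖W a f z‖ : ℝ) : ℂ) := by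
  push_cast
  refine Finset.sum_congr rfl fun z _ => ?_
  rw [mul_assoc, ph_mul]

theorem norm_sum_ph {d : ℕ} (a f : EE d → ℂ) (Y : Finset (EE d × ℝ)) (β : EE d × ℝ → ℝ) (h : ℝ)
    (hβ : ∀ z, 0 ≤ β z) (hh : ∀ z ∈ Y, h ≤ ‖W a f z‖) :
    h * ∑ z ∈ Y, β z ≤ ‖∑ z ∈ Y, (β z : ℂ) * ph (W a f z) * W a f z‖ := by
  rw [sum_ph, Complex.norm_real, Real.norm_eq_abs]
  refine le_trans ?_ (le_abs_self _)
  rw [Finset.mul_sum]
  refine Finset.sum_le_sum fun z hz => ?_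
  rw [mul_comm]
  exact mul_le_mul_of_nonneg_left (hh z hz) (hβ z)

theorem dual_step {d : ℕ} (hD : T_DUAL2) (a f : EE d → ℂ) (Y : Finset (EE d × ℝ)) (h : ℝ)
    (β : EE d × ℝ → ℝ) (ha : Sym a) (hf : Measurable f) (hb : ∃ N : ℝ, ∀ y, ‖f y‖ ≤ N) (hF : ∫⁻ y, ‖f y‖ₑ ^ 2 ≠ ⊤)
    (h0 : 0 < h) (hβ : ∀ z, 0 ≤ β z) (hh : ∀ z ∈ Y, h ≤ ‖W a f z‖) :
    (h * ∑ z ∈ Y, β z) ^ 2 ≤ (∫⁻ y, ‖f y‖ₑ ^ 2).toReal *
      ∑ z ∈ Y, ∑ z' ∈ Y, β z * β z' * G a f z z' := by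
  obtain ⟨h1, h2⟩ := hD d a f Y (fun z => (β z : ℂ) * ph (W a f z)) ha hf
    (Or.inl hb)
  rw [gq_eq] at h1 h2
  have h3 := norm_sum_ph a f Y β h hβ hh
  have h4 : 0 ≤ h * ∑ z ∈ Y, β z := mul_nonneg h0.le (Finset.sum_nonneg fun z _ => hβ z)
  refine (pow_le_pow_left₀ h4 h3 2).trans ?_
  rw [← ENNReal.ofReal_toReal hF, ← ENNReal.ofReal_mul ENNReal.toReal_nonneg] at h2
  have h5 := (ENNReal.ofReal_le_ofReal_iff (mul_nonneg ENNReal.toReal_nonneg h1)).1 h2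
  exact h5

/-- the trigonometric polynomial -/
noncomputable def tp {d : ℕ} (B : Finset (EE d × ℝ)) (c : EE d × ℝ → ℂ) (ξ : EE d) : ℂ :=
  ∑ z' ∈ B, c z' * e (-phi z' ξ)

theorem cont_tp {d : ℕ} (B : Finset (EE d × ℝ)) (c : EE d × ℝ → ℂ) : Continuous (tp B c) := by
  unfold tp
  refine continuous_finsetSum _ fun z _ => ?_
  exact continuous_const.mul (cont_e.comp (cont_phi z).neg)

theorem integrable_sq {d : ℕ} (a : EE d → ℂ) (ha : Sym (sq a)) (g : EE d → ℂ)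
    (hg : Continuous g) : Integrable (fun ξ => g ξ * sq a ξ) := by
  refine Continuous.integrable_of_hasCompactSupport (hg.mul ha.1.continuous) ?_
  exact ha.2.1.mul_left

theorem U_tp {d : ℕ} (a : EE d → ℂ) (ha : Sym (sq a)) (B : Finset (EE d × ℝ))
    (c : EE d × ℝ → ℂ) (s : ℂ) (z : EE d × ℝ) :
    U (fun ξ => s * (tp B c ξ * sq a ξ)) z = s * ∑ z' ∈ B, c z' * U (sq a) (z - z') := by
  rw [U_eq]
  have h1 : ∀ ξ, e (phi z ξ) * (s * (tp B c ξ * sq a ξ)) =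
      s * ∑ z' ∈ B, c z' * (e (phi (z - z') ξ) * sq a ξ) := by
    intro ξ
    unfold tp
    rw [Finset.mul_sum, Finset.sum_mul, Finset.mul_sum, Finset.mul_sum]
    refine Finset.sum_congr rfl fun z' _ => ?_
    rw [phi_sub, e_add]
    ring
  simp_rw [h1]
  rw [integral_const_mul, integral_finsetSum]
  · congr 1
    refine Finset.sum_congr rfl fun z' _ => ?_
    rw [integral_const_mul, U_eq]
  · intro z' _
    refine Integrable.const_mul ?_ _
    exact integrable_sq a ha _ (cont_e.comp (cont_phi _))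

theorem norm_tp_sq {d : ℕ} (a : EE d → ℂ) (ha : Sym (sq a)) (B : Finset (EE d × ℝ))
    (c : EE d × ℝ → ℂ) :
    ((∫ ξ, ‖a ξ‖ ^ 2 * ‖tp B c ξ‖ ^ 2 : ℝ) : ℂ) =
      ∑ z ∈ B, ∑ z' ∈ B, c z * (starRingEnd ℂ) (c z') * U (sq a) (z' - z) := by
  rw [← integral_complex_ofReal]
  have h1 : ∀ ξ, ((‖a ξ‖ ^ 2 * ‖tp B c ξ‖ ^ 2 : ℝ) : ℂ) =
      ∑ z ∈ B, ∑ z' ∈ B, c z * (starRingEnd ℂ) (c z') * (e (phi (z' - z) ξ) * sq a ξ) := by
    intro ξ
    have h2 : ((‖tp B c ξ‖ ^ 2 : ℝ) : ℂ) = tp B c ξ * (starRingEnd ℂ) (tp B c ξ) := by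
      rw [Complex.mul_conj, Complex.normSq_eq_norm_sq]
    rw [Complex.ofReal_mul, h2]
    unfold tp
    rw [map_sum, Finset.sum_mul_sum, Finset.mul_sum]
    refine Finset.sum_congr rfl fun z _ => ?_
    rw [Finset.mul_sum]
    refine Finset.sum_congr rfl fun z' _ => ?_
    rw [map_mul, conj_e, neg_neg, phi_sub, e_add, sqe]
    ring
  simp_rw [h1]
  have h3 : ∀ z z' : EE d × ℝ, Integrable
      (fun ξ => c z * (starRingEnd ℂ) (c z') * (e (phi (z' - z) ξ) * sq a ξ)) := by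
    intro z z'
    refine Integrable.const_mul ?_ _
    exact integrable_sq a ha _ (cont_e.comp (cont_phi _))
  rw [integral_finsetSum _ (fun z _ => integrable_finsetSum _ fun z' _ => h3 z z')]
  refine Finset.sum_congr rfl fun z _ => ?_
  rw [integral_finsetSum _ fun z' _ => h3 z z']
  refine Finset.sum_congr rfl fun z' _ => ?_
  rw [integral_const_mul, U_eq]

/-- the function to which the restriction estimate is applied -/
theorem mlr_fun {d : ℕ} (hG : T_GRAM) (a f : EE d → ℂ) (ha : Sym a) (B : Finset (EE d × ℝ))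
    (w : EE d × ℝ → ℝ) (S : ℝ) (hS : ∀ ξ, ‖a ξ‖ ≤ S)
    (hq : 0 < ∑ y ∈ B, ∑ y' ∈ B, w y * w y' * G a f y y') :
    ∃ b : EE d → ℂ, Continuous b ∧ (∀ ξ, b ξ ≠ 0 → ξ ∈ tsupport a) ∧
      ∫ ξ, ‖b ξ‖ ^ 2 ≤ S ^ 2 * (∑ y ∈ B, ∑ y' ∈ B, w y * w y' * G a f y y')⁻¹ ∧
      ∀ z, ∑ y ∈ B, ∑ y' ∈ B, w y * w y' * G a f y y' ≤ ∑ z' ∈ B, w z' * G a f z z' →
        1 ≤ ‖U b z‖ := by
  set q := ∑ y ∈ B, ∑ y' ∈ B, w y * w y' * G a f y y' with hqdef
  set c : EE d × ℝ → ℂ := fun z => (w z : ℂ) * (starRingEnd ℂ) (ph (W a f z)) with hc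
  obtain ⟨hsq, -, -, -⟩ := hG d a ha
  have hS0 : 0 ≤ S := (norm_nonneg _).trans (hS 0)
  have hint : ∫ ξ, ‖a ξ‖ ^ 2 * ‖tp B c ξ‖ ^ 2 = q := by
    have h1 := congrArg Complex.re (norm_tp_sq a hsq B c)
    rw [Complex.ofReal_re] at h1
    rw [h1, Complex.re_sum, hqdef]
    rw [Finset.sum_congr rfl fun z _ => Complex.re_sum B _, Finset.sum_comm]
    refine Finset.sum_congr rfl fun z _ => Finset.sum_congr rfl fun z' _ => ?_
    have h2 : c z' * (starRingEnd ℂ) (c z) * U (sq a) (z - z') = ((w z * w z' : ℝ) : ℂ) *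
        (ph (W a f z) * (starRingEnd ℂ) (ph (W a f z')) * U (sq a) (z - z')) := by
      rw [hc]
      simp only [map_mul, Complex.conj_conj, Complex.conj_ofReal]
      push_cast
      ring
    rw [h2, Complex.re_ofReal_mul]
    rfl
  refine ⟨fun ξ => ((q⁻¹ : ℝ) : ℂ) * (tp B c ξ * sq a ξ), ?_, ?_, ?_, ?_⟩
  · exact continuous_const.mul ((cont_tp B c).mul hsq.1.continuous)
  · intro ξ hξ
    by_contra hn
    apply hξ
    have h1 : a ξ = 0 := image_eq_zero_of_notMem_tsupport hn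
    simp [sqe, h1]
  · have h1 : ∀ ξ, ‖((q⁻¹ : ℝ) : ℂ) * (tp B c ξ * sq a ξ)‖ ^ 2 ≤
        S ^ 2 * (q⁻¹) ^ 2 * (‖a ξ‖ ^ 2 * ‖tp B c ξ‖ ^ 2) := by
      intro ξ
      have h2 : ‖((q⁻¹ : ℝ) : ℂ) * (tp B c ξ * sq a ξ)‖ ^ 2 =
          (‖a ξ‖ ^ 2) * ((q⁻¹) ^ 2 * (‖a ξ‖ ^ 2 * ‖tp B c ξ‖ ^ 2)) := by
        rw [norm_mul, norm_mul, sqe, Complex.norm_real, Complex.norm_real, Real.norm_eq_abs,
          Real.norm_eq_abs, abs_of_nonneg (inv_nonneg.2 hq.le),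
          abs_of_nonneg (pow_nonneg (norm_nonneg _) 2)]
        ring
      rw [h2, mul_assoc]
      refine mul_le_mul_of_nonneg_right (pow_le_pow_left₀ (norm_nonneg _) (hS ξ) 2) ?_
      positivity
    have h3 : Integrable (fun ξ => ‖a ξ‖ ^ 2 * ‖tp B c ξ‖ ^ 2) := by
      by_contra hn
      rw [integral_undef hn] at hint
      exact hq.ne hint
    have h4 := integral_mono_of_nonneg (Filter.Eventually.of_forall fun ξ => by positivity)
      (h3.const_mul (S ^ 2 * (q⁻¹) ^ 2)) (Filter.Eventually.of_forall h1)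
    refine h4.trans (le_of_eq ?_)
    rw [integral_const_mul, hint]
    field_simp
  · intro z hz
    rw [U_tp a hsq]
    have h1 : (ph (W a f z) * (((q⁻¹ : ℝ) : ℂ) * ∑ z' ∈ B, c z' * U (sq a) (z - z'))).re =
        q⁻¹ * ∑ z' ∈ B, w z' * G a f z z' := by
      have h2 : ph (W a f z) * (((q⁻¹ : ℝ) : ℂ) * ∑ z' ∈ B, c z' * U (sq a) (z - z')) =
          ((q⁻¹ : ℝ) : ℂ) * ∑ z' ∈ B, ((w z' : ℝ) : ℂ) *
            (ph (W a f z) * (starRingEnd ℂ) (ph (W a f z')) * U (sq a) (z - z')) := by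
        rw [mul_left_comm, Finset.mul_sum]
        congr 1
        refine Finset.sum_congr rfl fun z' _ => ?_
        rw [hc]
        ring
      rw [h2, Complex.re_ofReal_mul, Complex.re_sum]
      congr 1
      refine Finset.sum_congr rfl fun z' _ => ?_
      rw [Complex.re_ofReal_mul]
      rfl
    have h3 : (1 : ℝ) ≤ q⁻¹ * ∑ z' ∈ B, w z' * G a f z z' := by
      rw [inv_mul_eq_div, le_div_iff₀ hq, one_mul]
      exact hz
    rw [← h1] at h3
    refine h3.trans ((Complex.re_le_norm _).trans ?_)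
    rw [norm_mul, norm_ph, one_mul]

end Pool.Agent.H77.KL
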