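import Pool.Agent.H77.KL.LOC1

/-!
Module LOC of kl_modules, part 2: cells, directions.
-/

set_option autoImplicit false

namespace Pool.Agent.H77.KL

open MeasureTheory Set Pool.Agent.H82.KL
open scoped ENNReal NNReal

/-- the cell of a point -/
noncomputable def cell {d : ℕ} (ρ : ℝ) (z : EE d × ℝ) : (Fin d → ℤ) × ℤ :=
  (fun i => ⌊z.1 i / ρ⌋, ⌊z.2 / ρ⌋)

/-- the colour of a point -/
noncomputable def col {d : ℕ} (ρ : ℝ) (z : EE d × ℝ) : (Fin d → ZMod 2) × ZMod 2 :=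
  (fun i => ((⌊z.1 i / ρ⌋ : ℤ) : ZMod 2), ((⌊z.2 / ρ⌋ : ℤ) : ZMod 2))

theorem floor_far (x y : ℝ) (h1 : ((⌊x⌋ : ℤ) : ZMod 2) = ((⌊y⌋ : ℤ) : ZMod 2))
    (h2 : ⌊x⌋ ≠ ⌊y⌋) : 1 ≤ |x - y| := by
  have h3 := (ZMod.intCast_eq_intCast_iff_dvd_sub _ _ 2).1 h1
  have hx := Int.floor_le x
  have hx' := Int.lt_floor_add_one x
  have hy := Int.floor_le y
  have hy' := Int.lt_floor_add_one y
  obtain ⟨t, ht⟩ := h3
  have ht' : ⌊y⌋ - ⌊x⌋ = 2 * t := by exact_mod_cast ht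
  rcases lt_trichotomy t 0 with h | h | h
  · have h4 : ⌊y⌋ + 2 ≤ ⌊x⌋ := by omega
    have h5 : ((⌊y⌋ : ℤ) : ℝ) + 2 ≤ ((⌊x⌋ : ℤ) : ℝ) := by exact_mod_cast h4
    exact (by linarith : 1 ≤ x - y).trans (le_abs_self _)
  · exact absurd (by omega) h2
  · have h4 : ⌊x⌋ + 2 ≤ ⌊y⌋ := by omega
    have h5 : ((⌊x⌋ : ℤ) : ℝ) + 2 ≤ ((⌊y⌋ : ℤ) : ℝ) := by exact_mod_cast h4
    exact (by linarith : 1 ≤ -(x - y)).trans (neg_le_abs _)

theorem floor_far' (x y ρ : ℝ) (hρ : 0 < ρ)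
    (h1 : ((⌊x / ρ⌋ : ℤ) : ZMod 2) = ((⌊y / ρ⌋ : ℤ) : ZMod 2))
    (h2 : ⌊x / ρ⌋ ≠ ⌊y / ρ⌋) : ρ ≤ |x - y| := by
  have h3 := floor_far _ _ h1 h2
  rw [← sub_div, abs_div, abs_of_pos hρ, le_div_iff₀ hρ, one_mul] at h3
  exact h3

theorem cell_far {d : ℕ} (ρ : ℝ) (hρ : 0 < ρ) (z z' : EE d × ℝ) (h1 : col ρ z = col ρ z')
    (h2 : cell ρ z ≠ cell ρ z') : ρ ≤ dist z z' := by
  by_cases h : ⌊z.2 / ρ⌋ = ⌊z'.2 / ρ⌋
  · have h3 : (fun i => ⌊z.1 i / ρ⌋) ≠ fun i => ⌊z'.1 i / ρ⌋ := by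
      intro h4
      exact h2 (Prod.ext h4 h)
    obtain ⟨i, hi⟩ := Function.ne_iff.1 h3
    have h4 := floor_far' _ _ ρ hρ (congrFun (congrArg Prod.fst h1) i) hi
    refine h4.trans ?_
    rw [Prod.dist_eq]
    refine le_trans ?_ (le_max_left _ _)
    rw [dist_eq_norm]
    have h5 := PiLp.norm_apply_le (z.1 - z'.1) i
    rw [Real.norm_eq_abs] at h5
    exact h5
  · have h4 := floor_far' _ _ ρ hρ (congrArg Prod.snd h1) h
    refine h4.trans ?_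
    rw [Prod.dist_eq]
    refine le_trans ?_ (le_max_right _ _)
    rw [Real.dist_eq]

theorem floor_near (x y ρ : ℝ) (hρ : 0 < ρ) (h : ⌊x / ρ⌋ = ⌊y / ρ⌋) : |x - y| ≤ ρ := by
  have h3 := Int.abs_sub_lt_one_of_floor_eq_floor h
  rw [← sub_div, abs_div, abs_of_pos hρ, div_lt_iff₀ hρ, one_mul] at h3
  exact h3.le

theorem cell_near {d : ℕ} (hd : 1 ≤ d) (ρ : ℝ) (hρ : 0 < ρ) (z z' : EE d × ℝ)
    (h : cell ρ z = cell ρ z') : dist z z' ≤ Real.sqrt d * ρ := by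
  have hd' : (1 : ℝ) ≤ d := by exact_mod_cast hd
  have h1 : 1 ≤ Real.sqrt d := Real.one_le_sqrt.2 hd'
  rw [Prod.dist_eq]
  refine max_le ?_ ?_
  · rw [dist_eq_norm, EuclideanSpace.norm_eq]
    refine Real.sqrt_le_iff.2 ⟨by positivity, ?_⟩
    rw [mul_pow, Real.sq_sqrt (by linarith)]
    have h2 : ∀ i : Fin d, ‖(z.1 - z'.1) i‖ ^ 2 ≤ ρ ^ 2 := by
      intro i
      refine pow_le_pow_left₀ (norm_nonneg _) ?_ 2
      rw [Real.norm_eq_abs]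
      exact floor_near _ _ ρ hρ (congrFun (congrArg Prod.fst h) i)
    refine (Finset.sum_le_sum fun i _ => h2 i).trans ?_
    rw [Finset.sum_const, Finset.card_univ, Fintype.card_fin, nsmul_eq_mul]
  · rw [Real.dist_eq]
    have h2 := floor_near _ _ ρ hρ (congrArg Prod.snd h)
    refine h2.trans ?_
    nlinarith

/-- directions of different pieces are separated -/
theorem dir_sep {d k : ℕ} (a : Fin k → EE d → ℂ) (hs : ∀ j, Pool.Agent.H82.KL.Sym (a j))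
    (hT : Transv (fun j => tsupport (a j))) (hne : ∀ j, (tsupport (a j)).Nonempty)
    (i j : Fin k) (hij : i ≠ j) : ∃ η κ : ℝ, 0 < η ∧ 0 < κ ∧ ∀ ω ∈ Dir η (a i),
      ∀ ω₀ ∈ Dir η (a j), κ ≤ ‖ω - ω₀‖ := by
  classical
  have hcomp : ∀ l, IsCompact ((fun ξ : EE d => ‖ξ‖⁻¹ • ξ) '' tsupport (a l)) := by
    intro l
    refine IsCompact.image_of_continuousOn (hs l).2.1 ?_
    have h1 : ∀ ξ ∈ tsupport (a l), ‖ξ‖ ≠ 0 := by
      intro ξ hξ h0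
      rw [norm_eq_zero] at h0
      rw [h0] at hξ
      exact (hs l).2.2 hξ
    exact (continuousOn_id.norm.inv₀ h1).smul continuousOn_id
  have hdis : Disjoint ((fun ξ : EE d => ‖ξ‖⁻¹ • ξ) '' tsupport (a i))
      ((fun ξ : EE d => ‖ξ‖⁻¹ • ξ) '' tsupport (a j)) := by
    rw [Set.disjoint_left]
    rintro ω ⟨ξ, hξ, rfl⟩ ⟨ξ', hξ', h'⟩
    choose g hg using hne
    set g' : Fin k → EE d := Function.update (Function.update g i ξ) j ξ' with hg'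
    have h1 : ∀ l, g' l ∈ tsupport (a l) := by
      intro l
      rw [hg']
      by_cases hlj : l = j
      · rw [hlj, Function.update_self]; exact hξ'
      · rw [Function.update_of_ne hlj]
        by_cases hli : l = i
        · rw [hli, Function.update_self]; exact hξ
        · rw [Function.update_of_ne hli]; exact hg l
    have h2 := (hT g' h1).injective
    apply hij
    apply h2
    have h3 : g' i = ξ := by rw [hg', Function.update_of_ne hij, Function.update_self]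
    have h4 : g' j = ξ' := by rw [hg', Function.update_self]
    simp only [h3, h4]
    rw [Prod.mk.injEq]
    exact ⟨h'.symm, rfl⟩
  obtain ⟨δ, hδ, hD⟩ := hdis.exists_cthickenings (hcomp i) (hcomp j).isClosed
  refine ⟨δ / 2, δ / 2, by linarith, by linarith, ?_⟩
  rintro ω ⟨-, ξ, hξ, h1⟩ ω₀ ⟨-, ξ', hξ', h2⟩
  by_contra hn
  rw [not_le] at hn
  have h5 : ω ∈ Metric.cthickening δ ((fun ξ : EE d => ‖ξ‖⁻¹ • ξ) '' tsupport (a i)) := by
    refine Metric.mem_cthickening_of_dist_le ω (‖ξ‖⁻¹ • ξ) δ _ ⟨ξ, hξ, rfl⟩ ?_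
    rw [dist_eq_norm]
    linarith
  have h6 : ω ∈ Metric.cthickening δ ((fun ξ : EE d => ‖ξ‖⁻¹ • ξ) '' tsupport (a j)) := by
    refine Metric.mem_cthickening_of_dist_le ω (‖ξ'‖⁻¹ • ξ') δ _ ⟨ξ', hξ', rfl⟩ ?_
    rw [dist_eq_norm]
    have h3 := norm_add_le (ω - ω₀) (ω₀ - ‖ξ'‖⁻¹ • ξ')
    rw [sub_add_sub_cancel] at h3
    linarith
  exact Set.disjoint_left.1 hD h5 h6

end Pool.Agent.H77.KL
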