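import Pool.Agent.H77.KL.LOC2

/-!
Module LOC of kl_modules, part 3: the three hypotheses of the abstract argument.
-/

set_option autoImplicit false

namespace Pool.Agent.H77.KL

open MeasureTheory Set Pool.Agent.H82.KL
open scoped ENNReal NNReal

/-- the normalised amplitude -/
noncomputable def amp (d : ℕ) (R N h : ℝ) : ℝ := N * R ^ (((d : ℝ) - 1) / 2) / h

/-- the quadratic form -/
noncomputable def qf {d : ℕ} (a f : EE d → ℂ) (B : Finset (EE d × ℝ)) (w : EE d × ℝ → ℝ) : ℝ :=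
  ∑ y ∈ B, ∑ y' ∈ B, w y * w y' * G a f y y'

/-- sup bound -/
def PHS {d k : ℕ} (a : Fin k → EE d → ℂ) (K : ℝ) : Prop :=
  ∀ (j : Fin k) (R N : ℝ) (f : EE d → ℂ) (z : EE d × ℝ), 1 ≤ R → R ≤ z.2 → z.2 ≤ 2 * R →
    Measurable f → (∀ y, ‖f y‖ ≤ N) → ‖W (a j) f z‖ ≤ K * N * R ^ (((d : ℝ) - 1) / 2)

/-- restriction -/
def PH1 {d k : ℕ} (a : Fin k → EE d → ℂ) (ε K : ℝ) : Prop :=
  ∀ (R : ℝ) (f : Fin k → EE d → ℂ) (z₀ : EE d × ℝ) (Y : Finset (EE d × ℝ)), 1 ≤ R → Sep Y →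
    (∀ z ∈ Y, dist z z₀ ≤ R) → ∀ (B Z : Finset (EE d × ℝ)) (w : Fin k → EE d × ℝ → ℝ), B ⊆ Y →
    Z ⊆ B → (∀ j, 0 < qf (a j) (f j) B (w j)) →
    (∀ j, ∀ z ∈ Z, qf (a j) (f j) B (w j) ≤ ∑ z' ∈ B, w j z' * G (a j) (f j) z z') →
    (Z.card : ℝ) ≤ K * R ^ ε * ∏ j, qf (a j) (f j) B (w j) ^ (-(1 / ((k : ℝ) - 1)))

/-- shells -/
def PH2 {d k : ℕ} (a : Fin k → EE d → ℂ) (M : ℕ) (K : ℝ) : Prop :=
  ∀ (j : Fin k) (R r ρ N h : ℝ) (f : EE d → ℂ) (B : Finset (EE d × ℝ)) (w : EE d × ℝ → ℝ)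
    (z₁ : EE d × ℝ), 1 ≤ R → 1 ≤ r → r ≤ R → 1 ≤ ρ → 0 < h → Measurable f →
    (∀ y, ‖f y‖ ≤ N) → (∀ z ∈ B, dist z z₁ ≤ Real.sqrt d * ρ ∧ dist z z₁ ≤ 2 * R ∧ R ≤ z.2 ∧
      z.2 ≤ 2 * R ∧ h ≤ ‖W (a j) f z‖) → (∀ z, 0 ≤ w z) → ∑ z ∈ B, w z = 1 →
    K * amp d R N h ≤ r ^ M → 1 ≤ K * amp d R N h ^ 2 * (ρ * r) * qf (a j) f B w

/-- row sums -/
def PH3 {d k : ℕ} (a : Fin k → EE d → ℂ) (M : ℕ) (K : ℝ) : Prop :=
  ∀ (i j : Fin k), i ≠ j → ∀ (R r ρ N h : ℝ) (f : EE d → ℂ) (T : Finset (EE d × ℝ))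
    (z : EE d × ℝ), 1 ≤ R → 1 ≤ r → r ≤ R → 1 ≤ ρ → 0 < h → Measurable f →
    (∀ y, ‖f y‖ ≤ N) → Sep T → (∀ z' ∈ T, dist z z' ≤ 2 * R ∧ ρ ≤ dist z z' ∧ R ≤ z'.2 ∧
      z'.2 ≤ 2 * R ∧ h ≤ ‖W (a j) f z'‖) → K * amp d R N h ≤ r ^ M →
    ∑ z' ∈ T, ‖U (Pool.Agent.H82.KL.sq (a i)) (z - z')‖ ≤
      K * (1 + Real.log R) * (r ^ (d + 2) * amp d R N h ^ 2) * ρ ^ (-(((d : ℝ) - 3) / 2)) +
        K * R ^ (d + 1) * (r ^ M)⁻¹

theorem unif {ι : Type} [Finite ι] (P : ι → ℝ → Prop) (h : ∀ j, ∃ K₀, ∀ K, K₀ ≤ K → P j K) :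
    ∃ K₀, ∀ K, K₀ ≤ K → ∀ j, P j K := by
  choose c hc using h
  obtain ⟨K₀, hK⟩ := Set.finite_range c |>.bddAbove
  exact ⟨K₀, fun K hK' j => hc j K ((hK (Set.mem_range_self j)).trans hK')⟩

theorem ex_PHS (hS : T_SUPB) {d k : ℕ} (a : Fin k → EE d → ℂ) (hd : 1 ≤ d)
    (hs : ∀ j, Pool.Agent.H82.KL.Sym (a j)) : ∃ K₀, ∀ K, K₀ ≤ K → PHS a K := by
  refine unif (fun (j : Fin k) K => ∀ (R N : ℝ) (f : EE d → ℂ) (z : EE d × ℝ), 1 ≤ R → R ≤ z.2 →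
    z.2 ≤ 2 * R → Measurable f → (∀ y, ‖f y‖ ≤ N) →
    ‖W (a j) f z‖ ≤ K * N * R ^ (((d : ℝ) - 1) / 2)) ?_
  intro j
  obtain ⟨C, hC, h⟩ := hS d 0 (a j) hd (hs j)
  refine ⟨C, fun K hK R N f z hR h1 h2 hf hN => ?_⟩
  refine (h R N f z hR h1 h2 hf hN).1.trans ?_
  have hN0 : 0 ≤ N := (norm_nonneg _).trans (hN 0)
  have hR0 : 0 ≤ R ^ (((d : ℝ) - 1) / 2) := Real.rpow_nonneg (by linarith) _
  exact mul_le_mul_of_nonneg_right (mul_le_mul_of_nonneg_right hK hN0) hR0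

theorem ex_PH1 (hG : T_GRAM) (hM : T_MLR) {d k : ℕ} (a : Fin k → EE d → ℂ) (ε : ℝ) (hk : 2 ≤ k)
    (hε : 0 < ε) (hs : ∀ j, Pool.Agent.H82.KL.Sym (a j))
    (hT : Transv (fun j => tsupport (a j))) : ∃ K₀, ∀ K, K₀ ≤ K → PH1 a ε K := by
  obtain ⟨C, hC, h⟩ := hM d k (fun j => tsupport (a j)) ε hk hε (fun j => (hs j).2.1)
    (fun j => (hs j).2.2) hT
  choose S hS using fun j => (hs j).1.continuous.bounded_above_of_compact_support (hs j).2.1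
  have hk' : (0 : ℝ) < (k : ℝ) - 1 := by
    have : (2 : ℝ) ≤ k := by exact_mod_cast hk
    linarith
  refine ⟨C * ∏ j, (S j ^ 2) ^ (1 / ((k : ℝ) - 1)), ?_⟩
  intro K hK R f z₀ Y hR hSep hY B Z w hB hZ hq hZq
  choose b hb1 hb2 hb3 hb4 using fun j => mlr_fun hG (a j) (f j) (hs j) B (w j) (S j) (hS j) (hq j)
  have h1 := h R b z₀ Z hR hb1 hb2 (fun z hz z' hz' => hSep z (hB (hZ hz)) z' (hB (hZ hz')))
    (fun z hz => hY z (hB (hZ hz))) (fun z hz j => hb4 j z (hZq j z hz))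
  refine h1.trans ?_
  have hR0 : 0 ≤ R ^ ε := Real.rpow_nonneg (by linarith) _
  have h2 : ∏ j, (∫ ξ, ‖b j ξ‖ ^ 2) ^ (1 / ((k : ℝ) - 1)) ≤
      (∏ j, (S j ^ 2) ^ (1 / ((k : ℝ) - 1))) *
        ∏ j, qf (a j) (f j) B (w j) ^ (-(1 / ((k : ℝ) - 1))) := by
    rw [← Finset.prod_mul_distrib]
    refine Finset.prod_le_prod (fun j _ => Real.rpow_nonneg
      (integral_nonneg fun ξ => by positivity) _) fun j _ => ?_
    have hb3' : ∫ ξ, ‖b j ξ‖ ^ 2 ≤ S j ^ 2 * (qf (a j) (f j) B (w j))⁻¹ := hb3 j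
    refine (Real.rpow_le_rpow (integral_nonneg fun ξ => by positivity) hb3'
      (by positivity)).trans (le_of_eq ?_)
    rw [Real.mul_rpow (by positivity) (inv_nonneg.2 (hq j).le), Real.inv_rpow (hq j).le,
      Real.rpow_neg (hq j).le]
  have h3 : 0 ≤ ∏ j, qf (a j) (f j) B (w j) ^ (-(1 / ((k : ℝ) - 1))) :=
    Finset.prod_nonneg fun j _ => Real.rpow_nonneg (hq j).le _
  calc C * R ^ ε * ∏ j, (∫ ξ, ‖b j ξ‖ ^ 2) ^ (1 / ((k : ℝ) - 1))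
      ≤ C * R ^ ε * ((∏ j, (S j ^ 2) ^ (1 / ((k : ℝ) - 1))) *
        ∏ j, qf (a j) (f j) B (w j) ^ (-(1 / ((k : ℝ) - 1)))) :=
        mul_le_mul_of_nonneg_left h2 (mul_nonneg hC hR0)
    _ = (C * ∏ j, (S j ^ 2) ^ (1 / ((k : ℝ) - 1))) * (R ^ ε *
        ∏ j, qf (a j) (f j) B (w j) ^ (-(1 / ((k : ℝ) - 1)))) := by ring
    _ ≤ K * (R ^ ε * ∏ j, qf (a j) (f j) B (w j) ^ (-(1 / ((k : ℝ) - 1)))) :=
        mul_le_mul_of_nonneg_right hK (mul_nonneg hR0 h3)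
    _ = _ := by ring

theorem ex_PH2 (hS : T_SHL) {d k : ℕ} (a : Fin k → EE d → ℂ) (M : ℕ) (hd : 1 ≤ d)
    (hs : ∀ j, Pool.Agent.H82.KL.Sym (a j)) : ∃ K₀, ∀ K, K₀ ≤ K → PH2 a M K := by
  refine unif (fun (j : Fin k) K => ∀ (R r ρ N h : ℝ) (f : EE d → ℂ) (B : Finset (EE d × ℝ))
    (w : EE d × ℝ → ℝ) (z₁ : EE d × ℝ), 1 ≤ R → 1 ≤ r → r ≤ R → 1 ≤ ρ → 0 < h → Measurable f →
    (∀ y, ‖f y‖ ≤ N) → (∀ z ∈ B, dist z z₁ ≤ Real.sqrt d * ρ ∧ dist z z₁ ≤ 2 * R ∧ R ≤ z.2 ∧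
      z.2 ≤ 2 * R ∧ h ≤ ‖W (a j) f z‖) → (∀ z, 0 ≤ w z) → ∑ z ∈ B, w z = 1 →
    K * amp d R N h ≤ r ^ M → 1 ≤ K * amp d R N h ^ 2 * (ρ * r) * qf (a j) f B w) ?_
  intro j
  obtain ⟨C, hC, hSj⟩ := hS d M (a j) hd (hs j)
  have hd' : (1 : ℝ) ≤ d := by exact_mod_cast hd
  have hsd : 1 ≤ Real.sqrt d := Real.one_le_sqrt.2 hd'
  refine ⟨4 * (C + 1) * (Real.sqrt d + 1), ?_⟩
  intro K hK R r ρ N h f B w z₁ hR hr hrR hρ hh hf hN hB hw hw1 hKM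
  have hN0 : 0 ≤ N := (norm_nonneg _).trans (hN 0)
  have hR0 : 0 < R := by linarith
  have hRp : 0 ≤ R ^ (((d : ℝ) - 1) / 2) := Real.rpow_nonneg hR0.le _
  have hA0 : 0 ≤ amp d R N h := by unfold amp; positivity
  have hAh : N * R ^ (((d : ℝ) - 1) / 2) = amp d R N h * h := by
    unfold amp; field_simp
  have hCK : 2 * C ≤ K := by nlinarith
  obtain ⟨ρ', hρ'⟩ : ∃ ρ', ρ' = min (Real.sqrt d * ρ) (2 * R) := ⟨_, rfl⟩
  have hρ1 : ρ' ≤ Real.sqrt d * ρ := by rw [hρ']; exact min_le_left _ _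
  have hρ2 : ρ' ≤ 2 * R := by rw [hρ']; exact min_le_right _ _
  have hρ0 : 0 ≤ ρ' := by rw [hρ']; exact le_min (by positivity) (by positivity)
  have h1 := hSj R r ρ' N f B (fun z => (w z : ℂ) * ph (W (a j) f z)) z₁ hR hr hrR hρ0
    (by linarith) hf hN (fun z hz => ⟨by rw [hρ']; exact le_min (hB z hz).1 (hB z hz).2.1,
      (hB z hz).2.2.1, (hB z hz).2.2.2.1⟩)
  rw [gq_eq] at h1
  have h2 := norm_sum_ph (a j) f B w h hw (fun z hz => (hB z hz).2.2.2.2)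
  rw [hw1, mul_one] at h2
  have h3 : ∑ z ∈ B, ‖(w z : ℂ) * ph (W (a j) f z)‖ = 1 := by
    rw [← hw1]
    refine Finset.sum_congr rfl fun z _ => ?_
    rw [norm_mul, norm_ph, mul_one, Complex.norm_real, Real.norm_eq_abs, abs_of_nonneg (hw z)]
  rw [h3, mul_one] at h1
  have hrM : 0 < r ^ M := by positivity
  have h4 : C * N * R ^ (((d : ℝ) - 1) / 2) * (r ^ M)⁻¹ ≤ h / 2 := by
    rw [mul_assoc C N, hAh, ← div_eq_mul_inv, div_le_iff₀ hrM]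
    have h5 : 2 * C * amp d R N h ≤ r ^ M := (mul_le_mul_of_nonneg_right hCK hA0).trans hKM
    nlinarith
  have h5 : h / 2 ≤ N * Real.sqrt (C * R ^ ((d : ℝ) - 1) * (ρ' + r)) *
      Real.sqrt (qf (a j) f B w) := by
    unfold qf
    linarith
  have hq : 0 < qf (a j) f B w := by
    by_contra hn
    rw [Real.sqrt_eq_zero_of_nonpos (not_lt.1 hn), mul_zero] at h5
    linarith
  have h6 : (h / 2) ^ 2 ≤ C * (ρ' + r) * (amp d R N h * h) ^ 2 * qf (a j) f B w := by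
    refine (pow_le_pow_left₀ (by positivity) h5 2).trans (le_of_eq ?_)
    rw [mul_pow, mul_pow, Real.sq_sqrt (by positivity), Real.sq_sqrt hq.le, ← hAh, mul_pow]
    have h7 : R ^ ((d : ℝ) - 1) = (R ^ (((d : ℝ) - 1) / 2)) ^ 2 := by
      rw [← Real.rpow_natCast, ← Real.rpow_mul hR0.le]
      congr 1
      push_cast
      ring
    rw [h7]
    ring
  have h8 : 1 ≤ 4 * C * (ρ' + r) * amp d R N h ^ 2 * qf (a j) f B w := by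
    have h9 : h ^ 2 * 1 ≤ h ^ 2 * (4 * C * (ρ' + r) * amp d R N h ^ 2 * qf (a j) f B w) := by
      nlinarith [h6]
    exact le_of_mul_le_mul_left h9 (by positivity)
  refine h8.trans ?_
  have h10 : 4 * C * (ρ' + r) ≤ K * (ρ * r) := by
    have h11 : ρ' + r ≤ (Real.sqrt d + 1) * (ρ * r) := by
      have e1 : ρ' ≤ Real.sqrt d * (ρ * r) := by
        refine hρ1.trans ?_
        have : ρ * 1 ≤ ρ * r := mul_le_mul_of_nonneg_left hr (by linarith)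
        nlinarith
      have e2 : r ≤ ρ * r := by nlinarith
      linarith
    have h12 : 0 ≤ ρ * r := by positivity
    calc 4 * C * (ρ' + r) ≤ 4 * C * ((Real.sqrt d + 1) * (ρ * r)) :=
          mul_le_mul_of_nonneg_left h11 (by positivity)
      _ ≤ 4 * (C + 1) * (Real.sqrt d + 1) * (ρ * r) := by nlinarith
      _ ≤ K * (ρ * r) := mul_le_mul_of_nonneg_right hK h12
  calc 4 * C * (ρ' + r) * amp d R N h ^ 2 * qf (a j) f B w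
      = (4 * C * (ρ' + r)) * (amp d R N h ^ 2 * qf (a j) f B w) := by ring
    _ ≤ (K * (ρ * r)) * (amp d R N h ^ 2 * qf (a j) f B w) :=
        mul_le_mul_of_nonneg_right h10 (by positivity)
    _ = _ := by ring

theorem ex_PH3 (hL : T_LCC) (hRow : T_ROW) {d k : ℕ} (a : Fin k → EE d → ℂ) (M : ℕ) (hd : 3 ≤ d)
    (hs : ∀ j, Pool.Agent.H82.KL.Sym (a j)) (hT : Transv (fun j => tsupport (a j)))
    (hne : ∀ j, (tsupport (a j)).Nonempty) : ∃ K₀, ∀ K, K₀ ≤ K → PH3 a M K := by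
  have h0 : ∀ p : Fin k × Fin k, ∃ K₀, ∀ K, K₀ ≤ K → p.1 ≠ p.2 → ∀ (R r ρ N h : ℝ)
      (f : EE d → ℂ) (T : Finset (EE d × ℝ))
      (z : EE d × ℝ), 1 ≤ R → 1 ≤ r → r ≤ R → 1 ≤ ρ → 0 < h → Measurable f →
      (∀ y, ‖f y‖ ≤ N) → Sep T → (∀ z' ∈ T, dist z z' ≤ 2 * R ∧ ρ ≤ dist z z' ∧ R ≤ z'.2 ∧
        z'.2 ≤ 2 * R ∧ h ≤ ‖W (a p.2) f z'‖) → K * amp d R N h ≤ r ^ M →
      ∑ z' ∈ T, ‖U (Pool.Agent.H82.KL.sq (a p.1)) (z - z')‖ ≤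
        K * (1 + Real.log R) * (r ^ (d + 2) * amp d R N h ^ 2) * ρ ^ (-(((d : ℝ) - 3) / 2)) +
          K * R ^ (d + 1) * (r ^ M)⁻¹ := by
    rintro ⟨i, j⟩
    by_cases hij : i = j
    · exact ⟨0, fun K _ h => absurd hij h⟩
    obtain ⟨η, κ, hη, hκ, hdir⟩ := dir_sep a hs hT hne i j hij
    obtain ⟨C1, hC1, h1⟩ := hL d M η κ (a i) (a j) (by omega) hη hκ (hs i) (hs j) hdir
    obtain ⟨C2, hC2, h2⟩ := hRow d M η (a i) hd hη (hs i)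
    refine ⟨C1 + C2 + C2 * C1, ?_⟩
    intro K hK _ R r ρ N h f T z hR hr hrR hρ hh hf hN hSep hTT hKM
    have hN0 : 0 ≤ N := (norm_nonneg _).trans (hN 0)
    have hR0 : 0 < R := by linarith
    have hRp : 0 ≤ R ^ (((d : ℝ) - 1) / 2) := Real.rpow_nonneg hR0.le _
    have hA0 : 0 ≤ amp d R N h := by unfold amp; positivity
    have hC21 : 0 ≤ C2 * C1 := mul_nonneg hC2 hC1.le
    have hlog : 0 ≤ Real.log R := Real.log_nonneg hR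
    have hρp : 0 ≤ ρ ^ (-(((d : ℝ) - 3) / 2)) := Real.rpow_nonneg (by linarith) _
    have h3 := h2 R r ρ (C1 * r ^ (d + 2) * amp d R N h ^ 2) T z hR hr hρ (by positivity) hSep
      (fun z' hz' => ⟨(hTT z' hz').1, (hTT z' hz').2.1⟩) (by
        intro ρ' hρ1 hρ2
        have h4 := h1 R r ρ' N h f T z hR hr hrR hρ1 hρ2 hh hf hN hSep
          (fun z' hz' => (hTT z' hz').2.2)
          ((mul_le_mul_of_nonneg_right (by linarith) hA0).trans hKM)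
        refine h4.trans (le_of_eq ?_)
        unfold amp
        ring)
    refine h3.trans ?_
    refine add_le_add ?_ ?_
    · calc C2 * (1 + Real.log R) * (C1 * r ^ (d + 2) * amp d R N h ^ 2) *
            ρ ^ (-(((d : ℝ) - 3) / 2)) = (C2 * C1) * ((1 + Real.log R) *
            (r ^ (d + 2) * amp d R N h ^ 2) * ρ ^ (-(((d : ℝ) - 3) / 2))) := by ring
        _ ≤ K * ((1 + Real.log R) *
            (r ^ (d + 2) * amp d R N h ^ 2) * ρ ^ (-(((d : ℝ) - 3) / 2))) :=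
            mul_le_mul_of_nonneg_right (by linarith) (by positivity)
        _ = _ := by ring
    · rw [mul_assoc, mul_assoc]
      exact mul_le_mul_of_nonneg_right (by linarith) (by positivity)
  obtain ⟨K₀, hK₀⟩ := unif _ h0
  exact ⟨K₀, fun K hK i j hij => hK₀ K hK (i, j) hij⟩

end Pool.Agent.H77.KL
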