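import Pool.Agent.H77.KL.LOC3

/-!
Module LOC of kl_modules, part 4: numerology.
-/

set_option autoImplicit false

namespace Pool.Agent.H77.KL

open MeasureTheory Set Pool.Agent.H82.KL
open scoped ENNReal NNReal

/-- the exponent of the size of the cells -/
noncomputable def cc (d k : ℕ) : ℝ :=
  4 * ((k : ℝ) - 2) / (((k : ℝ) - 1) * ((d : ℝ) - 3) + 2)

theorem cc_nonneg {d k : ℕ} (hd : 3 ≤ d) (hk : 2 ≤ k) : 0 ≤ cc d k := by
  have hd' : (3 : ℝ) ≤ d := by exact_mod_cast hd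
  have hk' : (2 : ℝ) ≤ k := by exact_mod_cast hk
  unfold cc
  have h1 : 0 ≤ ((k : ℝ) - 1) * ((d : ℝ) - 3) := mul_nonneg (by linarith) (by linarith)
  exact div_nonneg (by linarith) (by linarith)

theorem exp1 {d k : ℕ} (hd : 3 ≤ d) (hk : 2 ≤ k) :
    (2 + cc d k) * (1 / ((k : ℝ) - 1)) = Pk d k - 2 := by
  have hd' : (3 : ℝ) ≤ d := by exact_mod_cast hd
  have hk' : (2 : ℝ) ≤ k := by exact_mod_cast hk
  unfold cc Pk
  have h1 : 0 ≤ ((k : ℝ) - 1) * ((d : ℝ) - 3) := mul_nonneg (by linarith) (by linarith)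
  have h2 : ((k : ℝ) - 1) * ((d : ℝ) - 3) + 2 ≠ 0 := by linarith
  have h3 : (k : ℝ) - 1 ≠ 0 := by linarith
  rw [add_sub_cancel_left, mul_one_div, div_eq_div_iff h3 h2, add_mul,
    div_mul_cancel₀ _ h2]
  ring

theorem exp2 {d k : ℕ} (hd : 3 ≤ d) (hk : 2 ≤ k) :
    2 - cc d k * (((d : ℝ) - 3) / 2) = Pk d k - 2 := by
  have hd' : (3 : ℝ) ≤ d := by exact_mod_cast hd
  have hk' : (2 : ℝ) ≤ k := by exact_mod_cast hk
  unfold cc Pk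
  have h1 : 0 ≤ ((k : ℝ) - 1) * ((d : ℝ) - 3) := mul_nonneg (by linarith) (by linarith)
  have h2 : ((k : ℝ) - 1) * ((d : ℝ) - 3) + 2 ≠ 0 := by linarith
  rw [add_sub_cancel_left, eq_div_iff h2, sub_mul, mul_right_comm, div_mul_cancel₀ _ h2]
  ring

theorem num0 {d : ℕ} {L ε K R A : ℝ} {M : ℕ} (hL : 0 < L) (hM : 2 * L + d + 3 ≤ ε * M)
    (_hK : 1 ≤ K) (hR2 : 2 ≤ R) (hKR : K ≤ R) (hA : A ≤ (2 * R) ^ L) (hA0 : 0 ≤ A) :
    K * A ≤ (R ^ ε) ^ M ∧ R ^ (d + 1) ≤ (R ^ ε) ^ M := by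
  have hR0 : 0 < R := by linarith
  have hd : (0 : ℝ) ≤ d := Nat.cast_nonneg d
  have h1 : (R ^ ε) ^ M = R ^ (ε * M) := by rw [← Real.rpow_natCast, ← Real.rpow_mul hR0.le]
  rw [h1]
  constructor
  · have h2 : (2 * R) ^ L ≤ R ^ (2 * L) := by
      rw [Real.rpow_mul hR0.le, Real.rpow_two]
      exact Real.rpow_le_rpow (by linarith) (by nlinarith) hL.le
    calc K * A ≤ R * R ^ (2 * L) := mul_le_mul hKR (hA.trans h2) hA0 hR0.le
      _ = R ^ (1 + 2 * L) := by rw [Real.rpow_add hR0, Real.rpow_one]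
      _ ≤ R ^ (ε * M) := Real.rpow_le_rpow_of_exponent_le (by linarith) (by linarith)
  · rw [← Real.rpow_natCast]
    refine Real.rpow_le_rpow_of_exponent_le (by linarith) ?_
    push_cast
    linarith

theorem num1 {d k : ℕ} (hd : 3 ≤ d) (hk : 2 ≤ k) {ε K R A α : ℝ} (hε : 0 < ε)
    (hK : 1 ≤ K) (hR : 1 ≤ R) (hα : 0 < α) (hαA : α ≤ A) (hA : 1 ≤ A) :
    K * R ^ ε * (K * α ^ 2 * (A ^ cc d k * R ^ ε)) ^ (1 / ((k : ℝ) - 1)) ≤
      K ^ 2 * R ^ (((d : ℝ) + 3) * ε) * A ^ (Pk d k - 2) := by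
  have hk' : (2 : ℝ) ≤ k := by exact_mod_cast hk
  have hd' : (3 : ℝ) ≤ d := by exact_mod_cast hd
  have hR0 : 0 < R := by linarith
  have hA0 : 0 < A := by linarith
  have hk1 : 0 ≤ 1 / ((k : ℝ) - 1) := div_nonneg zero_le_one (by linarith)
  have hk2 : 1 / ((k : ℝ) - 1) ≤ 1 := (div_le_one (by linarith)).2 (by linarith)
  have hRe : 1 ≤ R ^ ε := Real.one_le_rpow hR hε.le
  have h1 : (K * α ^ 2 * (A ^ cc d k * R ^ ε)) ^ (1 / ((k : ℝ) - 1)) ≤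
      (K * (A ^ (2 + cc d k) * R ^ ε)) ^ (1 / ((k : ℝ) - 1)) := by
    refine Real.rpow_le_rpow (by positivity) ?_ hk1
    rw [Real.rpow_add hA0, Real.rpow_two]
    have h2 : α ^ 2 ≤ A ^ 2 := pow_le_pow_left₀ hα.le hαA 2
    calc K * α ^ 2 * (A ^ cc d k * R ^ ε) ≤ K * A ^ 2 * (A ^ cc d k * R ^ ε) :=
          mul_le_mul_of_nonneg_right (mul_le_mul_of_nonneg_left h2 (by linarith)) (by positivity)
      _ = _ := by ring
  have h3 : (K * (A ^ (2 + cc d k) * R ^ ε)) ^ (1 / ((k : ℝ) - 1)) =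
      K ^ (1 / ((k : ℝ) - 1)) * (A ^ (Pk d k - 2) * (R ^ ε) ^ (1 / ((k : ℝ) - 1))) := by
    rw [Real.mul_rpow (by linarith) (by positivity), Real.mul_rpow (by positivity) (by positivity),
      ← Real.rpow_mul hA0.le, exp1 hd hk]
  have h4 : K ^ (1 / ((k : ℝ) - 1)) ≤ K := by
    have := Real.rpow_le_rpow_of_exponent_le hK hk2
    rwa [Real.rpow_one] at this
  have h5 : (R ^ ε) ^ (1 / ((k : ℝ) - 1)) ≤ R ^ ε := by
    have := Real.rpow_le_rpow_of_exponent_le hRe hk2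
    rwa [Real.rpow_one] at this
  have h6 : R ^ ε * R ^ ε ≤ R ^ (((d : ℝ) + 3) * ε) := by
    rw [← Real.rpow_add hR0]
    refine Real.rpow_le_rpow_of_exponent_le hR ?_
    nlinarith
  have hAp : 0 ≤ A ^ (Pk d k - 2) := Real.rpow_nonneg hA0.le _
  have hRp : 0 ≤ (R ^ ε) ^ (1 / ((k : ℝ) - 1)) := Real.rpow_nonneg (by linarith) _
  calc K * R ^ ε * (K * α ^ 2 * (A ^ cc d k * R ^ ε)) ^ (1 / ((k : ℝ) - 1))
      ≤ K * R ^ ε * (K ^ (1 / ((k : ℝ) - 1)) *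
          (A ^ (Pk d k - 2) * (R ^ ε) ^ (1 / ((k : ℝ) - 1)))) := by
        rw [← h3]
        exact mul_le_mul_of_nonneg_left h1 (by positivity)
    _ ≤ K * R ^ ε * (K * (A ^ (Pk d k - 2) * R ^ ε)) := by
        refine mul_le_mul_of_nonneg_left ?_ (by positivity)
        refine mul_le_mul h4 (mul_le_mul_of_nonneg_left h5 hAp) (by positivity) (by linarith)
    _ = K ^ 2 * (R ^ ε * R ^ ε) * A ^ (Pk d k - 2) := by ring
    _ ≤ K ^ 2 * R ^ (((d : ℝ) + 3) * ε) * A ^ (Pk d k - 2) :=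
        mul_le_mul_of_nonneg_right (mul_le_mul_of_nonneg_left h6 (by positivity)) hAp

theorem num2 {d k : ℕ} (hd : 3 ≤ d) (hk : 2 ≤ k) {ε K R A α : ℝ} {M : ℕ} (hε : 0 < ε)
    (hK : 1 ≤ K) (hR : 1 ≤ R) (hα : 0 < α) (hαA : α ≤ A) (hA : 1 ≤ A)
    (hRM : R ^ (d + 1) ≤ (R ^ ε) ^ M) :
    K * (1 + Real.log R) * ((R ^ ε) ^ (d + 2) * α ^ 2) *
        (A ^ cc d k) ^ (-(((d : ℝ) - 3) / 2)) + K * R ^ (d + 1) * ((R ^ ε) ^ M)⁻¹ ≤
      K * (2 + 1 / ε) * R ^ (((d : ℝ) + 3) * ε) * A ^ (Pk d k - 2) := by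
  have hd' : (3 : ℝ) ≤ d := by exact_mod_cast hd
  have hk' : (2 : ℝ) ≤ k := by exact_mod_cast hk
  have hR0 : 0 < R := by linarith
  have hA0 : 0 < A := by linarith
  have hRe : 1 ≤ R ^ ε := Real.one_le_rpow hR hε.le
  have hP : 0 ≤ Pk d k - 2 := by
    rw [← exp1 hd hk]
    exact mul_nonneg (by linarith [cc_nonneg hd hk]) (div_nonneg zero_le_one (by linarith))
  have hAp : 1 ≤ A ^ (Pk d k - 2) := Real.one_le_rpow hA hP
  have hRp : 1 ≤ R ^ (((d : ℝ) + 3) * ε) := Real.one_le_rpow hR (by positivity)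
  have h1 : 1 + Real.log R ≤ (1 + 1 / ε) * R ^ ε := by
    have h2 := Real.log_le_rpow_div hR0.le hε
    rw [div_eq_mul_one_div] at h2
    nlinarith
  have h3 : α ^ 2 * (A ^ cc d k) ^ (-(((d : ℝ) - 3) / 2)) ≤ A ^ (Pk d k - 2) := by
    have e1 : Pk d k - 2 = 2 + cc d k * (-(((d : ℝ) - 3) / 2)) := by
      rw [← exp2 hd hk]
      ring
    rw [← Real.rpow_mul hA0.le, e1, Real.rpow_add hA0, Real.rpow_two]
    exact mul_le_mul_of_nonneg_right (pow_le_pow_left₀ hα.le hαA 2) (Real.rpow_nonneg hA0.le _)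
  have h4 : R ^ ε * (R ^ ε) ^ (d + 2) = R ^ (((d : ℝ) + 3) * ε) := by
    rw [← pow_succ', ← Real.rpow_natCast, ← Real.rpow_mul hR0.le]
    congr 1
    push_cast
    ring
  have h5 : R ^ (d + 1) * ((R ^ ε) ^ M)⁻¹ ≤ 1 := by
    rw [← div_eq_mul_inv]
    exact (div_le_one (by positivity)).2 hRM
  have hx : 0 ≤ (A ^ cc d k) ^ (-(((d : ℝ) - 3) / 2)) :=
    Real.rpow_nonneg (Real.rpow_nonneg hA0.le _) _
  have hy : 0 ≤ α ^ 2 * (A ^ cc d k) ^ (-(((d : ℝ) - 3) / 2)) := mul_nonneg (by positivity) hx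
  have h6 : (1 + Real.log R) * ((R ^ ε) ^ (d + 2) * α ^ 2) *
        (A ^ cc d k) ^ (-(((d : ℝ) - 3) / 2)) ≤
      (1 + 1 / ε) * R ^ (((d : ℝ) + 3) * ε) * A ^ (Pk d k - 2) := by
    calc (1 + Real.log R) * ((R ^ ε) ^ (d + 2) * α ^ 2) *
          (A ^ cc d k) ^ (-(((d : ℝ) - 3) / 2))
        = ((1 + Real.log R) * (R ^ ε) ^ (d + 2)) *
          (α ^ 2 * (A ^ cc d k) ^ (-(((d : ℝ) - 3) / 2))) := by ring
      _ ≤ (((1 + 1 / ε) * R ^ ε) * (R ^ ε) ^ (d + 2)) * A ^ (Pk d k - 2) := by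
          refine mul_le_mul (mul_le_mul_of_nonneg_right h1 (by positivity)) h3 hy (by positivity)
      _ = (1 + 1 / ε) * (R ^ ε * (R ^ ε) ^ (d + 2)) * A ^ (Pk d k - 2) := by ring
      _ = _ := by rw [h4]
  have h7 : 1 ≤ R ^ (((d : ℝ) + 3) * ε) * A ^ (Pk d k - 2) := by nlinarith
  have h8 : K * (1 + Real.log R) * ((R ^ ε) ^ (d + 2) * α ^ 2) *
        (A ^ cc d k) ^ (-(((d : ℝ) - 3) / 2)) + K * R ^ (d + 1) * ((R ^ ε) ^ M)⁻¹ =
      K * ((1 + Real.log R) * ((R ^ ε) ^ (d + 2) * α ^ 2) *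
        (A ^ cc d k) ^ (-(((d : ℝ) - 3) / 2)) + R ^ (d + 1) * ((R ^ ε) ^ M)⁻¹) := by ring
  rw [h8]
  have h9 : (1 + Real.log R) * ((R ^ ε) ^ (d + 2) * α ^ 2) *
        (A ^ cc d k) ^ (-(((d : ℝ) - 3) / 2)) + R ^ (d + 1) * ((R ^ ε) ^ M)⁻¹ ≤
      (2 + 1 / ε) * (R ^ (((d : ℝ) + 3) * ε) * A ^ (Pk d k - 2)) := by
    have h10 : (2 + 1 / ε) * (R ^ (((d : ℝ) + 3) * ε) * A ^ (Pk d k - 2)) =
        (1 + 1 / ε) * R ^ (((d : ℝ) + 3) * ε) * A ^ (Pk d k - 2) +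
          R ^ (((d : ℝ) + 3) * ε) * A ^ (Pk d k - 2) := by ring
    rw [h10]
    exact add_le_add h6 (h5.trans h7)
  refine (mul_le_mul_of_nonneg_left h9 (by linarith)).trans (le_of_eq ?_)
  ring

end Pool.Agent.H77.KL
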