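import Pool.Agent.H77.KL.LOC4

/-!
Module LOC of kl_modules, part 5: large balls.
-/

set_option autoImplicit false

namespace Pool.Agent.H77.KL

open MeasureTheory Set Pool.Agent.H82.KL
open scoped ENNReal NNReal

/-- large balls -/
theorem loc_large (hABS : T_ABS) (hDual : T_DUAL2) {d k : ℕ} (hd : 3 ≤ d) (hk : 2 ≤ k)
    {L ε K : ℝ} {M : ℕ} (a : Fin k → EE d → ℂ) (hL : 0 < L) (hε : 0 < ε) (hε1 : ε ≤ 1)
    (hM : 2 * L + d + 3 ≤ ε * M) (hK : 1 ≤ K) (hs : ∀ j, Pool.Agent.H82.KL.Sym (a j))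
    (hS : PHS a K) (h1 : PH1 a ε K) (h2 : PH2 a M K) (h3 : PH3 a M K) :
    ∃ C : ℝ, 0 ≤ C ∧ ∀ (R h : ℝ) (N : Fin k → ℝ) (f : Fin k → EE d → ℂ) (z₀ : EE d × ℝ)
      (Y : Finset (EE d × ℝ)), 2 ≤ R → K ≤ R → 0 < h → (∀ j, Measurable (f j)) →
      (∀ j y, ‖f j y‖ ≤ N j) → Sep Y →
      (∀ z ∈ Y, dist z z₀ ≤ R ∧ R ≤ z.2 ∧ z.2 ≤ 2 * R ∧ ∀ j, h ≤ ‖W (a j) (f j) z‖) →
      (∀ j, amp d R (N j) h ≤ (2 * R) ^ L) → (∀ j, ∫⁻ y, ‖f j y‖ₑ ^ 2 ≠ ⊤) →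
      (Y.card : ℝ) ≤ C * R ^ (((d : ℝ) + 3) * ε) *
        ∑ j, amp d R (N j) h ^ (Pk d k - 2) / h ^ 2 * (∫⁻ y, ‖f j y‖ₑ ^ 2).toReal := by
  classical
  obtain ⟨CA, hCA, hA⟩ := hABS k hk
  have hk' : (2 : ℝ) ≤ k := by exact_mod_cast hk
  have hd' : (3 : ℝ) ≤ d := by exact_mod_cast hd
  have hP : 0 ≤ Pk d k - 2 := by
    rw [← exp1 hd hk]
    exact mul_nonneg (by linarith [cc_nonneg hd hk]) (div_nonneg zero_le_one (by linarith))
  have hKP : 0 ≤ K ^ (Pk d k - 2) := Real.rpow_nonneg (by linarith) _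
  refine ⟨(Fintype.card ((Fin d → ZMod 2) × ZMod 2) : ℝ) *
    (CA * (K ^ 2 + K * (2 + 1 / ε)) * K ^ (Pk d k - 2)), by positivity, ?_⟩
  intro R h N f z₀ Y hR2 hKR hh hf hN hSep hY hAmp hfin
  have hR0 : 0 < R := by linarith
  have hR1 : 1 ≤ R := by linarith
  have hN0 : ∀ j, 0 ≤ N j := fun j => (norm_nonneg _).trans (hN j 0)
  have hRp : 0 ≤ R ^ (((d : ℝ) - 1) / 2) := Real.rpow_nonneg hR0.le _
  have hα0 : ∀ j, 0 ≤ amp d R (N j) h := fun j => by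
    have := hN0 j
    unfold amp; positivity
  have hT0 : ∀ j, 0 ≤ amp d R (N j) h ^ (Pk d k - 2) / h ^ 2 *
      (∫⁻ y, ‖f j y‖ₑ ^ 2).toReal := fun j => by
    have := hα0 j
    positivity
  rcases Y.eq_empty_or_nonempty with hYe | ⟨z₁, hz₁⟩
  · rw [hYe, Finset.card_empty, Nat.cast_zero]
    exact mul_nonneg (by positivity) (Finset.sum_nonneg fun j _ => hT0 j)
  have hα1 : ∀ j, 1 ≤ K * amp d R (N j) h := by
    intro j
    have e1 := hS j R (N j) (f j) z₁ hR1 (hY z₁ hz₁).2.1 (hY z₁ hz₁).2.2.1 (hf j) (hN j)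
    have e2 := (hY z₁ hz₁).2.2.2 j
    unfold amp
    rw [← mul_div_assoc, le_div_iff₀ hh, one_mul]
    linarith
  have hα2 : ∀ j, 0 < amp d R (N j) h := by
    intro j
    by_contra hn
    have := hα1 j
    nlinarith [hα0 j]
  have : Nonempty (Fin k) := ⟨⟨0, by omega⟩⟩
  obtain ⟨j₀, -, hj₀⟩ := Finset.exists_min_image Finset.univ (fun j => amp d R (N j) h)
    Finset.univ_nonempty
  obtain ⟨α, hαdef⟩ : ∃ α, α = amp d R (N j₀) h := ⟨_, rfl⟩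
  obtain ⟨A, hAdef⟩ : ∃ A, A = max α 1 := ⟨_, rfl⟩
  have hA1 : 1 ≤ A := by rw [hAdef]; exact le_max_right _ _
  have hαA : α ≤ A := by rw [hAdef]; exact le_max_left _ _
  have hαp : 0 < α := by rw [hαdef]; exact hα2 j₀
  have hA0 : 0 < A := by linarith
  obtain ⟨ρ, hρdef⟩ : ∃ ρ, ρ = A ^ cc d k := ⟨_, rfl⟩
  have hρ1 : 1 ≤ ρ := by rw [hρdef]; exact Real.one_le_rpow hA1 (cc_nonneg hd hk)
  obtain ⟨r, hrdef⟩ : ∃ r, r = R ^ ε := ⟨_, rfl⟩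
  have hr1 : 1 ≤ r := by rw [hrdef]; exact Real.one_le_rpow hR1 hε.le
  have hrR : r ≤ R := by
    rw [hrdef]
    have := Real.rpow_le_rpow_of_exponent_le hR1 hε1
    rwa [Real.rpow_one] at this
  obtain ⟨n1, n2⟩ := num0 (d := d) (M := M) hL hM hK hR2 hKR (hAmp j₀) (hα0 j₀)
  rw [← hrdef] at n1 n2
  have hrM : 0 < r ^ M := by positivity
  obtain ⟨D, hD⟩ : ∃ D, D = K * α ^ 2 * (ρ * r) := ⟨_, rfl⟩
  obtain ⟨S, hSd⟩ : ∃ S, S = K * (1 + Real.log R) * (r ^ (d + 2) * α ^ 2) *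
    ρ ^ (-(((d : ℝ) - 3) / 2)) + K * R ^ (d + 1) * (r ^ M)⁻¹ := ⟨_, rfl⟩
  have hDp : 0 < D := by rw [hD]; positivity
  have hSp : 0 < S := by
    have := Real.log_nonneg hR1
    rw [hSd]; positivity
  have hnum : K * R ^ ε * D ^ (1 / ((k : ℝ) - 1)) + S ≤
      (K ^ 2 + K * (2 + 1 / ε)) * (R ^ (((d : ℝ) + 3) * ε) * A ^ (Pk d k - 2)) := by
    have e1 := num1 hd hk hε hK hR1 hαp hαA hA1
    have e2 := num2 (M := M) hd hk hε hK hR1 hαp hαA hA1 (by rw [← hrdef]; exact n2)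
    rw [← hρdef, ← hrdef, ← hD] at e1
    rw [← hρdef, ← hrdef, ← hSd] at e2
    rw [hrdef] at e1
    refine (add_le_add e1 e2).trans (le_of_eq ?_)
    ring
  have hclass : ∀ γ : (Fin d → ZMod 2) × ZMod 2, ((Y.filter fun z => col ρ z = γ).card : ℝ) ≤
      CA * (K * R ^ ε * D ^ (1 / ((k : ℝ) - 1)) + S) *
        ∑ j ∈ Finset.univ.erase j₀, (∫⁻ y, ‖f j y‖ₑ ^ 2).toReal / h ^ 2 := by
    intro γ
    obtain ⟨Y', hY'⟩ : ∃ Y', Y' = Y.filter fun z => col ρ z = γ := ⟨_, rfl⟩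
    rw [← hY']
    have hsub : Y' ⊆ Y := by rw [hY']; exact Finset.filter_subset _ _
    have hcol : ∀ z ∈ Y', col ρ z = γ := fun z hz => by
      rw [hY'] at hz
      exact (Finset.mem_filter.1 hz).2
    refine hA (EE d × ℝ) ((Fin d → ℤ) × ℤ) Y' (cell ρ) (fun j => G (a j) (f j)) j₀
      (fun j => (∫⁻ y, ‖f j y‖ₑ ^ 2).toReal) h (K * R ^ ε) D S hh (by positivity) hDp hSp
      (fun j => ENNReal.toReal_nonneg) (fun j z _ z' _ => G_symm _ _ _ _) ?_ ?_ ?_ ?_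
    · intro j β hβ
      exact dual_step hDual (a j) (f j) Y' h β (hs j) (hf j) ⟨N j, hN j⟩ (hfin j) hh hβ
        fun z hz => (hY z (hsub hz)).2.2.2 j
    · intro B Z w hB hZ _ _ _ hq hZq
      exact h1 R f z₀ Y hR1 hSep (fun z hz => (hY z hz).1) B Z w (hB.trans hsub) hZ hq hZq
    · intro B w hB hcell hw hw1
      have hBne : B.Nonempty := by
        rw [Finset.nonempty_iff_ne_empty]
        intro he
        rw [he, Finset.sum_empty] at hw1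
        exact zero_ne_one hw1
      obtain ⟨z₂, hz₂⟩ := hBne
      have e1 := h2 j₀ R r ρ (N j₀) h (f j₀) B w z₂ hR1 hr1 hrR hρ1 hh (hf j₀) (hN j₀)
        (fun z hz => by
          have f1 := hY z (hsub (hB hz))
          have f2 := hY z₂ (hsub (hB hz₂))
          refine ⟨cell_near (by omega) ρ (by linarith) z z₂ (hcell z hz z₂ hz₂), ?_, f1.2.1,
            f1.2.2.1, f1.2.2.2 j₀⟩
          have f3 := dist_triangle_right z z₂ z₀
          linarith [f1.1, f2.1]) hw hw1 n1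
      rw [← hαdef, ← hD] at e1
      exact e1
    · intro j hj z hz T hT hTc
      have e1 := h3 j j₀ hj R r ρ (N j₀) h (f j₀) T z hR1 hr1 hrR hρ1 hh (hf j₀) (hN j₀)
        (fun x hx x' hx' => hSep x (hsub (hT hx)) x' (hsub (hT hx')))
        (fun z' hz' => by
          have f1 := hY z (hsub hz)
          have f2 := hY z' (hsub (hT hz'))
          refine ⟨?_, ?_, f2.2.1, f2.2.2.1, f2.2.2.2 j₀⟩
          · have f3 := dist_triangle_right z z' z₀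
            linarith [f1.1, f2.1]
          · exact cell_far ρ (by linarith) z z' ((hcol z hz).trans (hcol z' (hT hz')).symm)
              (hTc z' hz').symm) n1
      rw [← hαdef, ← hSd] at e1
      refine le_trans (Finset.sum_le_sum fun z' _ => abs_G_le _ _ _ _) e1
  have hsum : (Y.card : ℝ) = ∑ γ : (Fin d → ZMod 2) × ZMod 2,
      ((Y.filter fun z => col ρ z = γ).card : ℝ) := by
    rw [Finset.card_eq_sum_card_fiberwise (f := col ρ) (t := Finset.univ)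
      (fun z _ => Finset.mem_coe.2 (Finset.mem_univ _))]
    push_cast
    rfl
  have hAα : ∀ j, A ≤ K * amp d R (N j) h := by
    intro j
    rw [hAdef]
    refine max_le ?_ (hα1 j)
    have e1 : α ≤ amp d R (N j) h := by rw [hαdef]; exact hj₀ j (Finset.mem_univ j)
    nlinarith [hα0 j]
  have hAp : ∀ j, A ^ (Pk d k - 2) ≤ K ^ (Pk d k - 2) * amp d R (N j) h ^ (Pk d k - 2) := by
    intro j
    rw [← Real.mul_rpow (by linarith) (hα0 j)]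
    exact Real.rpow_le_rpow hA0.le (hAα j) hP
  have hF : A ^ (Pk d k - 2) * ∑ j ∈ Finset.univ.erase j₀,
      (∫⁻ y, ‖f j y‖ₑ ^ 2).toReal / h ^ 2 ≤ K ^ (Pk d k - 2) *
      ∑ j, amp d R (N j) h ^ (Pk d k - 2) / h ^ 2 * (∫⁻ y, ‖f j y‖ₑ ^ 2).toReal := by
    rw [Finset.mul_sum, Finset.mul_sum]
    refine (Finset.sum_le_sum_of_subset_of_nonneg (Finset.erase_subset _ _) fun j _ _ =>
      mul_nonneg (Real.rpow_nonneg hA0.le _) (div_nonneg ENNReal.toReal_nonneg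
        (by positivity))).trans ?_
    refine Finset.sum_le_sum fun j _ => ?_
    calc A ^ (Pk d k - 2) * ((∫⁻ y, ‖f j y‖ₑ ^ 2).toReal / h ^ 2)
        ≤ (K ^ (Pk d k - 2) * amp d R (N j) h ^ (Pk d k - 2)) *
          ((∫⁻ y, ‖f j y‖ₑ ^ 2).toReal / h ^ 2) :=
          mul_le_mul_of_nonneg_right (hAp j) (div_nonneg ENNReal.toReal_nonneg (by positivity))
      _ = _ := by ring
  have hFe : 0 ≤ ∑ j ∈ Finset.univ.erase j₀, (∫⁻ y, ‖f j y‖ₑ ^ 2).toReal / h ^ 2 :=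
    Finset.sum_nonneg fun j _ => div_nonneg ENNReal.toReal_nonneg (by positivity)
  rw [hsum]
  refine (Finset.sum_le_sum fun γ _ => hclass γ).trans ?_
  rw [Finset.sum_const, Finset.card_univ, nsmul_eq_mul]
  have hlast : CA * (K * R ^ ε * D ^ (1 / ((k : ℝ) - 1)) + S) *
        ∑ j ∈ Finset.univ.erase j₀, (∫⁻ y, ‖f j y‖ₑ ^ 2).toReal / h ^ 2 ≤
      (CA * (K ^ 2 + K * (2 + 1 / ε)) * R ^ (((d : ℝ) + 3) * ε)) * (K ^ (Pk d k - 2) *
      ∑ j, amp d R (N j) h ^ (Pk d k - 2) / h ^ 2 * (∫⁻ y, ‖f j y‖ₑ ^ 2).toReal) := by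
    calc CA * (K * R ^ ε * D ^ (1 / ((k : ℝ) - 1)) + S) *
          ∑ j ∈ Finset.univ.erase j₀, (∫⁻ y, ‖f j y‖ₑ ^ 2).toReal / h ^ 2
        ≤ CA * ((K ^ 2 + K * (2 + 1 / ε)) * (R ^ (((d : ℝ) + 3) * ε) * A ^ (Pk d k - 2))) *
          ∑ j ∈ Finset.univ.erase j₀, (∫⁻ y, ‖f j y‖ₑ ^ 2).toReal / h ^ 2 :=
          mul_le_mul_of_nonneg_right (mul_le_mul_of_nonneg_left hnum hCA) hFe
      _ = (CA * (K ^ 2 + K * (2 + 1 / ε)) * R ^ (((d : ℝ) + 3) * ε)) * (A ^ (Pk d k - 2) *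
          ∑ j ∈ Finset.univ.erase j₀, (∫⁻ y, ‖f j y‖ₑ ^ 2).toReal / h ^ 2) := by ring
      _ ≤ _ := mul_le_mul_of_nonneg_left hF (by positivity)
  refine (mul_le_mul_of_nonneg_left hlast (Nat.cast_nonneg _)).trans (le_of_eq ?_)
  ring

end Pool.Agent.H77.KL
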